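import Pool.Agent.K7.H47.DM.Stm4

set_option autoImplicit false

namespace Pool.Agent.K7.H61.D4

open Finset Pool.Agent.K7.H47.DM4

theorem key {ι : Type} [Fintype ι] [DecidableEq ι] (t j cl : ι → ℕ) (ht : Function.Injective t)
    (σ σ' : Equiv.Perm ι) (hσ : Feas t j σ) (hσ' : Feas t j σ')
    (hopt : ∀ τ, Feas t j τ → Wt t cl τ ≤ Wt t cl σ) (r : ι)
    (hr : ∀ r', t r' < t r → cl (σ.symm r') = cl (σ'.symm r')) :
    cl (σ.symm r) ≤ cl (σ'.symm r) := by
  by_contra hlt
  push Not at hlt
  set κ := cl (σ'.symm r) with hκ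
  have hx : ∃ x, cl x = κ ∧ j x ≤ t r ∧ t r < t (σ x) := by
    by_contra hno
    push Not at hno
    have h1 : (univ.filter fun c => cl c = κ ∧ t (σ' c) ≤ t r) ⊆
        (univ.filter fun c => cl c = κ ∧ t (σ c) ≤ t r) := by
      intro c hc
      simp only [mem_filter, mem_univ, true_and] at hc ⊢
      exact ⟨hc.1, hno c hc.1 ((hσ' c).trans hc.2)⟩
    have h2 : ∀ ρ : Equiv.Perm ι, (univ.filter fun c => cl c = κ ∧ t (ρ c) ≤ t r).card =
        (univ.filter fun r' => cl (ρ.symm r') = κ ∧ t r' ≤ t r).card := by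
      intro ρ
      refine Finset.card_bij (fun c _ => ρ c) ?_ ?_ ?_
      · intro c hc
        simpa using hc
      · intro a _ b _ h
        exact ρ.injective h
      · intro b hb
        refine ⟨ρ.symm b, ?_, by simp⟩
        simpa using hb
    have h4 : (univ.filter fun r' => cl (σ.symm r') = κ ∧ t r' ≤ t r) ⊂
        (univ.filter fun r' => cl (σ'.symm r') = κ ∧ t r' ≤ t r) := by
      refine (Finset.ssubset_iff_of_subset ?_).2 ⟨r, by simp [hκ], ?_⟩
      · intro r' hr'
        simp only [mem_filter, mem_univ, true_and] at hr' ⊢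
        rcases hr'.2.lt_or_eq with h | h
        · exact ⟨(hr r' h) ▸ hr'.1, hr'.2⟩
        · have : r' = r := ht h
          subst this
          exact ⟨rfl, hr'.2⟩
      · simp only [mem_filter, mem_univ, true_and, not_and]
        intro h
        omega
    have h5 := Finset.card_lt_card h4
    have h6 := Finset.card_le_card h1
    rw [h2 σ, h2 σ'] at h6
    omega
  obtain ⟨x, hx1, hx2, hx3⟩ := hx
  set y := σ.symm r with hy
  have hσy : σ y = r := by rw [hy]; simp
  have hxy : x ≠ y := by
    rintro rfl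
    rw [hσy] at hx3
    exact lt_irrefl _ hx3
  let τ : Equiv.Perm ι := (Equiv.swap x y).trans σ
  have hτx : τ x = r := by simp [τ, hσy]
  have hτy : τ y = σ x := by simp [τ]
  have hτ : ∀ c, c ≠ x → c ≠ y → τ c = σ c := by
    intro c h1 h2
    simp [τ, Equiv.swap_apply_of_ne_of_ne h1 h2]
  have hfeas : Feas t j τ := by
    intro c
    by_cases h1 : c = x
    · rw [h1, hτx]; exact hx2
    by_cases h2 : c = y
    · rw [h2, hτy]
      have := hσ y
      rw [hσy] at this
      exact this.trans hx3.le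
    rw [hτ c h1 h2]
    exact hσ c
  have hw := hopt τ hfeas
  unfold Wt at hw
  have hyx : y ∈ univ.erase x := mem_erase.2 ⟨hxy.symm, mem_univ _⟩
  rw [← add_sum_erase _ _ (mem_univ x), ← add_sum_erase _ _ hyx,
    ← add_sum_erase (a := x) _ (fun c => cl c * t (σ c)) (mem_univ x),
    ← add_sum_erase _ (fun c => cl c * t (σ c)) hyx] at hw
  have hrest : ∑ c ∈ (univ.erase x).erase y, cl c * t (τ c) =
      ∑ c ∈ (univ.erase x).erase y, cl c * t (σ c) := by
    refine sum_congr rfl fun c hc => ?_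
    have h1 := ne_of_mem_erase hc
    have h2 := ne_of_mem_erase (mem_of_mem_erase hc)
    rw [hτ c h2 h1]
  rw [hrest, hτx, hτy, hσy, hx1] at hw
  have h7 : κ * t r + cl y * t (σ x) ≤ κ * t (σ x) + cl y * t r := by omega
  obtain ⟨d, hd⟩ := Nat.exists_eq_add_of_lt hx3
  obtain ⟨e, he⟩ := Nat.exists_eq_add_of_lt hlt
  rw [hd, he] at h7
  nlinarith

theorem u : StU := by
  intro ι _ _ t j cl ht σ σ' hσ hσ' hopt hopt'
  have main : ∀ n : ℕ, ∀ r, t r = n → cl (σ.symm r) = cl (σ'.symm r) := by
    intro n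
    induction n using Nat.strong_induction_on with
    | _ n ih =>
      intro r hr
      have h : ∀ r', t r' < t r → cl (σ.symm r') = cl (σ'.symm r') := fun r' h' =>
        ih (t r') (hr ▸ h') r' rfl
      exact le_antisymm (key t j cl ht σ σ' hσ hσ' hopt r h)
        (key t j cl ht σ' σ hσ' hσ hopt' r fun r' h' => (h r' h').symm)
  exact fun r => main (t r) r rfl

end Pool.Agent.K7.H61.D4
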