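import Mathlib

/-!
# The canonical nonclassical Hopf-Galois structure: definitions
-/

set_option autoImplicit false

namespace Pool.Agent.K7.H61.HG

section

variable (K L : Type*) [Field K] [Field L] [Algebra K L]

/-- The left regular representation `λ : G → Perm(G)`, `λ(g)(h) = g h`, of `G = Gal(L/K)`. -/
def lam (g : L ≃ₐ[K] L) : Equiv.Perm (L ≃ₐ[K] L) := Equiv.mulLeft g

theorem lam_mul (a b : L ≃ₐ[K] L) : lam K L (a * b) = lam K L a * lam K L b := by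
  ext x y
  rfl

theorem lam_one : lam K L 1 = 1 := by
  ext x y
  rfl

theorem lam_inv (a : L ≃ₐ[K] L) : lam K L a⁻¹ = (lam K L a)⁻¹ := by
  rw [eq_inv_iff_mul_eq_one, ← lam_mul, inv_mul_cancel, lam_one]

theorem lam_mul_mem {s t : Equiv.Perm (L ≃ₐ[K] L)} (hs : s ∈ Set.range (lam K L))
    (ht : t ∈ Set.range (lam K L)) : s * t ∈ Set.range (lam K L) := by
  obtain ⟨a, rfl⟩ := hs
  obtain ⟨b, rfl⟩ := ht
  exact ⟨a * b, lam_mul K L a b⟩

theorem lam_inv_mem {s : Equiv.Perm (L ≃ₐ[K] L)} (hs : s ∈ Set.range (lam K L)) :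
    s⁻¹ ∈ Set.range (lam K L) := by
  obtain ⟨a, rfl⟩ := hs
  exact ⟨a⁻¹, lam_inv K L a⟩

/-- The subgroup `N = λ(G)` of `Perm(G)`. -/
def N : Subgroup (Equiv.Perm (L ≃ₐ[K] L)) where
  carrier := Set.range (lam K L)
  mul_mem' := lam_mul_mem K L
  one_mem' := ⟨1, lam_one K L⟩
  inv_mem' := lam_inv_mem K L

theorem conj_mem (g : L ≃ₐ[K] L) (n : N K L) :
    lam K L g * (n : Equiv.Perm (L ≃ₐ[K] L)) * (lam K L g)⁻¹ ∈ N K L :=
  (N K L).mul_mem ((N K L).mul_mem ⟨g, rfl⟩ n.2) ((N K L).inv_mem ⟨g, rfl⟩)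

/-- `λ(g) n λ(g)⁻¹`, for `n ∈ N`. -/
def conj (g : L ≃ₐ[K] L) (n : N K L) : N K L :=
  ⟨lam K L g * (n : Equiv.Perm (L ≃ₐ[K] L)) * (lam K L g)⁻¹, conj_mem K L g n⟩

/-- The action of `g ∈ G` on the group algebra `L[N]`:
`g · ∑ c_n n = ∑ g(c_n) λ(g) n λ(g)⁻¹`. -/
noncomputable def galAct (g : L ≃ₐ[K] L) (h : MonoidAlgebra L (N K L)) :
    MonoidAlgebra L (N K L) :=
  h.coeff.sum fun n c => MonoidAlgebra.single (conj K L g n) (g c)

/-- The Hopf algebra `H_λ = L[N]^G`, as a subset of `L[N]`. -/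
def H : Set (MonoidAlgebra L (N K L)) := {h | ∀ g : L ≃ₐ[K] L, galAct K L g h = h}

/-- The action `(∑ c_n n) · x = ∑ c_n (n⁻¹(1_G))(x)` on `L`. -/
noncomputable def act (h : MonoidAlgebra L (N K L)) (x : L) : L :=
  h.coeff.sum fun n c => c * (((n⁻¹ : N K L) : Equiv.Perm (L ≃ₐ[K] L)) 1) x

variable {K L} in
/-- `Γ` is an order, over the subring `O` of the field `K`, in the subalgebra `B` of a `K`-algebra `A`:
a subring of `B` with the same unit which is an `O`-submodule, finitely generated over `O`, and which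
spans `B` over `K`. -/
def IsOrder {A : Type*} [Ring A] [Algebra K A] (O : Set K) (B Γ : Set A) : Prop :=
  Γ ⊆ B ∧ 1 ∈ Γ ∧ (∀ a ∈ Γ, ∀ b ∈ Γ, a + b ∈ Γ) ∧ (∀ a ∈ Γ, ∀ b ∈ Γ, a * b ∈ Γ) ∧
    (∀ r ∈ O, ∀ a ∈ Γ, r • a ∈ Γ) ∧
    (∃ s : Finset A, ↑s ⊆ Γ ∧ ∀ a ∈ Γ, ∃ c : A → K, (∀ b, c b ∈ O) ∧ a = ∑ b ∈ s, c b • b) ∧
    B ⊆ Submodule.span K Γ

variable {K L} in
/-- `Γ` is a maximal order, over the subring `O` of the field `K`, in the subalgebra `B` of `A`. -/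
def IsMaximalOrder {A : Type*} [Ring A] [Algebra K A] (O : Set K) (B Γ : Set A) : Prop :=
  IsOrder O B Γ ∧ ∀ Γ' : Set A, IsOrder O B Γ' → Γ ⊆ Γ' → Γ' = Γ

/-- `O_K`, for a `p`-adic field `K`: the elements of `K` which are integral over `ℤ_p`. -/
def ringOfIntegers (p : ℕ) [Fact p.Prime] [Algebra ℤ_[p] K] : Set K := {x | IsIntegral ℤ_[p] x}

/-- The associated order `𝔄_λ = {h ∈ H_λ : h · O_L ⊆ O_L}`. -/
def assocOrder (p : ℕ) [Fact p.Prime] [Algebra ℤ_[p] L] : Set (MonoidAlgebra L (N K L)) :=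
  {h | h ∈ H K L ∧ ∀ x ∈ ringOfIntegers L p, act K L h x ∈ ringOfIntegers L p}

end

end Pool.Agent.K7.H61.HG
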