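import Mathlib

/-!
# Traces of integral endomorphisms, and lattices stable under a group of invertible order
-/

set_option autoImplicit false

namespace Pool.Agent.K7.H61.HG

open Polynomial

/-- The trace of an endomorphism which is integral over `R` is integral over `R`. -/
lemma isIntegral_trace_end (R : Type*) {K V : Type*} [CommRing R] [Field K] [Algebra R K]
    [AddCommGroup V] [Module K V] [FiniteDimensional K V] (f : Module.End K V)
    (hf : ∃ P : R[X], P.Monic ∧ aeval f (P.map (algebraMap R K)) = 0) :
    IsIntegral R (LinearMap.trace K V f) := by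
  obtain ⟨P, hP, hPf⟩ := hf
  set Ω := AlgebraicClosure K
  have h1 : IsIntegral R (algebraMap K Ω (LinearMap.trace K V f)) := by
    rw [← LinearMap.trace_baseChange]
    have hs : (f.baseChange Ω).charpoly.Splits := IsAlgClosed.splits _
    rw [Module.End.trace_eq_sum_roots_charpoly_of_splits hs]
    refine IsIntegral.multiset_sum ?_
    intro μ hμ
    have h2 : (f.baseChange Ω).charpoly.IsRoot μ := Polynomial.isRoot_of_mem_roots hμ
    rw [← Module.End.hasEigenvalue_iff_isRoot_charpoly] at h2
    refine ⟨P, hP, ?_⟩
    have h3 : (minpoly Ω (f.baseChange Ω)).IsRoot μ := Module.End.isRoot_of_hasEigenvalue h2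
    have h4 : aeval (f.baseChange Ω) (P.map (algebraMap R Ω)) = 0 := by
      have h5 : aeval (f.baseChange Ω) ((P.map (algebraMap R K)).map (algebraMap K Ω)) =
          (aeval f (P.map (algebraMap R K))).baseChange Ω := by
        generalize P.map (algebraMap R K) = Q
        induction Q using Polynomial.induction_on' with
        | add p q hp hq => simp [hp, hq, LinearMap.baseChange_add]
        | monomial n a =>
          simp only [map_monomial, aeval_monomial]
          rw [LinearMap.baseChange_mul, LinearMap.baseChange_pow]
          congr 1
          ext v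
          simp
      rw [Polynomial.map_map, ← IsScalarTower.algebraMap_eq] at h5
      rw [h5, hPf, LinearMap.baseChange_zero]
    have h5 : minpoly Ω (f.baseChange Ω) ∣ P.map (algebraMap R Ω) := minpoly.dvd _ _ h4
    have h6 : (P.map (algebraMap R Ω)).IsRoot μ := h3.dvd h5
    rwa [IsRoot, eval_map] at h6
  exact (isIntegral_algebraMap_iff (algebraMap K Ω).injective).1 h1

end Pool.Agent.K7.H61.HG
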