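import Mathlib
import Pool.Agent.K7.H61.TraceInt

set_option autoImplicit false
set_option linter.style.haveILetI false

namespace Pool.Agent.K7.H61.HG

open Module

section

variable {R K V : Type*} [CommRing R] [IsDedekindDomain R] [Field K] [Algebra R K]
  [IsFractionRing R K] [AddCommGroup V] [Module K V] [Module R V] [IsScalarTower R K V]
  [FiniteDimensional K V]

variable (K) in
omit [FiniteDimensional K V] in
include K in
lemma isTorsionFree_of_tower : Module.IsTorsionFree R V := by
  refine ⟨fun r hr => ?_⟩
  intro x y hxy
  have hr0 : algebraMap R K r ≠ 0 := by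
    intro h
    have : r = 0 := (FaithfulSMul.algebraMap_injective R K) (by rw [h, map_zero])
    exact hr.ne_zero this
  simp only at hxy
  rw [← IsScalarTower.algebraMap_smul K r x, ← IsScalarTower.algebraMap_smul K r y] at hxy
  exact smul_right_injective V hr0 hxy

/-- A lattice over a Dedekind domain is cut out by the linear forms which are integral on it. -/
lemma mem_of_dual (M : Submodule R V) [M.IsLattice K] (y : V)
    (h : ∀ l : V →ₗ[K] K, (∀ m ∈ M, ∃ r : R, algebraMap R K r = l m) →
      ∃ r : R, algebraMap R K r = l y) : y ∈ M := by
  have : Module.Finite R M := Submodule.IsLattice.finite K M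
  have : Module.IsTorsionFree R V := isTorsionFree_of_tower K
  have : Module.IsTorsionFree R M := inferInstance
  have : Module.Flat R M := inferInstance
  have : IsNoetherianRing R := inferInstance
  have : Module.FinitePresentation R M := Module.finitePresentation_of_finite R M
  have : Module.Projective R M := Module.Flat.projective_of_finitePresentation
  obtain ⟨n, f, hf⟩ := Module.Finite.exists_fin' R M
  obtain ⟨s, hs⟩ := Module.projective_lifting_property f LinearMap.id hf
  -- a `K`-basis of `V` inside `M`
  have hspan : Submodule.span K (M : Set V) = ⊤ := Submodule.IsLattice.span_eq_top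
  obtain ⟨t, ht1, ht2, ht3⟩ := exists_linearIndependent K (M : Set V)
  let b : Basis t K V := Basis.mk ht3 (by rw [Subtype.range_coe, ht2, hspan])
  have hb : ∀ i, b i ∈ M := by
    intro i
    rw [Basis.mk_apply]
    exact ht1 i.2
  have hfin : Finite t := Module.Finite.finite_basis b
  have : Fintype t := Fintype.ofFinite t
  -- extension of `s`
  let S : V →ₗ[K] (Fin n → K) := b.constr K (fun i => fun j => algebraMap R K (s ⟨b i, hb i⟩ j))
  have hS : ∀ m : M, S m = fun j => algebraMap R K (s m j) := by
    intro m
    obtain ⟨d, hd⟩ := IsLocalization.exist_integer_multiples_of_finite (nonZeroDivisors R)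
      (fun i => b.repr (m : V) i)
    choose c hc using hd
    have hd0 : algebraMap R K (d : R) ≠ 0 := by
      intro h0
      exact nonZeroDivisors.coe_ne_zero d
        ((FaithfulSMul.algebraMap_injective R K) (by rw [h0, map_zero]))
    have hm : (d : R) • m = ∑ i, c i • (⟨b i, hb i⟩ : M) := by
      apply Subtype.ext
      rw [Submodule.coe_smul, Submodule.coe_sum]
      conv_lhs => rw [← b.sum_repr (m : V)]
      rw [Finset.smul_sum]
      refine Finset.sum_congr rfl fun i _ => ?_
      rw [Submodule.coe_smul, ← IsScalarTower.algebraMap_smul K (c i), hc i,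
        ← IsScalarTower.algebraMap_smul K (d : R), smul_smul, Algebra.smul_def]
    have hS1 : ∀ i, S (b i) = fun j => algebraMap R K (s ⟨b i, hb i⟩ j) := fun i =>
      b.constr_basis K _ i
    have h1 : algebraMap R K (d : R) • S m =
        algebraMap R K (d : R) • (fun j => algebraMap R K (s m j) : Fin n → K) := by
      have h2 : algebraMap R K (d : R) • S m = S ((d : R) • (m : V)) := by
        rw [← IsScalarTower.algebraMap_smul K (d : R) (m : V), map_smul]
      have h3 : ((d : R) • (m : V)) = ∑ i, algebraMap R K (c i) • b i := by
        have := congrArg Subtype.val hm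
        rw [Submodule.coe_smul, Submodule.coe_sum] at this
        rw [this]
        refine Finset.sum_congr rfl fun i _ => ?_
        rw [Submodule.coe_smul, IsScalarTower.algebraMap_smul]
      rw [h2, h3, map_sum]
      simp only [map_smul, hS1]
      have h4 : s ((d : R) • m) = ∑ i, c i • s ⟨b i, hb i⟩ := by
        rw [hm, map_sum]
        simp only [map_smul]
      funext j
      have h5 := congrFun h4 j
      rw [map_smul] at h5
      simp only [Pi.smul_apply, Finset.sum_apply, smul_eq_mul] at h5 ⊢
      rw [← map_mul, h5, map_sum]
      simp only [map_mul]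
    exact smul_right_injective _ hd0 h1
  -- the image of the basis vectors
  have hy : ∀ j : Fin n, ∃ r : R, algebraMap R K r = S y j := by
    intro j
    refine h ((LinearMap.proj j).comp S) ?_
    intro m hm
    refine ⟨s ⟨m, hm⟩ j, ?_⟩
    have := congrFun (hS ⟨m, hm⟩) j
    exact this.symm
  choose r hr using hy
  -- reconstruct
  let F : (Fin n → K) →ₗ[K] V := (Pi.basisFun K (Fin n)).constr K
    (fun j => ((f (Pi.single j 1) : M) : V))
  have hF : ∀ v : Fin n → R, F (fun j => algebraMap R K (v j)) = (f v : V) := by
    intro v
    have h1 : (fun j => algebraMap R K (v j) : Fin n → K) =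
        ∑ j, algebraMap R K (v j) • (Pi.basisFun K (Fin n)) j := by
      funext i
      simp [Pi.basisFun_apply, Pi.single_apply, Algebra.smul_def]
    rw [h1, map_sum]
    simp only [map_smul, F, Basis.constr_basis]
    have h2 : v = ∑ j, v j • (Pi.single j (1 : R) : Fin n → R) := by
      funext i
      simp [Pi.single_apply]
    conv_rhs => rw [h2, map_sum, Submodule.coe_sum]
    refine Finset.sum_congr rfl fun j _ => ?_
    rw [map_smul, Submodule.coe_smul, IsScalarTower.algebraMap_smul]
  have hFS : F ∘ₗ S = LinearMap.id := by
    refine b.ext fun i => ?_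
    rw [LinearMap.comp_apply, LinearMap.id_apply]
    have h1 := hS ⟨b i, hb i⟩
    change S (b i) = _ at h1
    rw [h1, hF]
    have h2 := LinearMap.congr_fun hs ⟨b i, hb i⟩
    rw [LinearMap.comp_apply, LinearMap.id_apply] at h2
    rw [h2]
  have h1 : y = F (S y) := by
    have := LinearMap.congr_fun hFS y
    rw [LinearMap.comp_apply, LinearMap.id_apply] at this
    exact this.symm
  have h2 : S y = fun j => algebraMap R K (r j) := by
    funext j
    rw [hr]
  rw [h1, h2, hF]
  exact (f r).2

end

end Pool.Agent.K7.H61.HG
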