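import Mathlib
import Pool.Agent.K7.H61.Lattice
import Pool.Agent.K7.H61.HGDefs

set_option autoImplicit false

namespace Pool.Agent.K7.H61.HG

open Module

section defs

variable (K L : Type*) [Field K] [Field L] [Algebra K L]

/-- The automorphism `n ↦ λ(g) n λ(g)⁻¹` of `N`. -/
def conjN (g : L ≃ₐ[K] L) : N K L →* N K L :=
  (MulAut.conj (⟨lam K L g, g, rfl⟩ : N K L)).toMonoidHom

lemma conjN_eq (g : L ≃ₐ[K] L) (n : N K L) : conjN K L g n = conj K L g n := rfl

/-- The action of `g ∈ G` on `L[N]` as a ring homomorphism. -/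
noncomputable def galHom (g : L ≃ₐ[K] L) :
    MonoidAlgebra L (N K L) →+* MonoidAlgebra L (N K L) :=
  (MonoidAlgebra.mapDomainRingHom L (conjN K L g)).comp
    (MonoidAlgebra.mapRingHom (N K L) (g : L →+* L))

lemma galHom_algebraMap (g : L ≃ₐ[K] L) (k : K) :
    galHom K L g (algebraMap K _ k) = algebraMap K _ k := by
  simp [galHom]

lemma galHom_eq (g : L ≃ₐ[K] L) (h : MonoidAlgebra L (N K L)) :
    galHom K L g h = galAct K L g h := by
  unfold galAct
  induction h using MonoidAlgebra.induction_linear with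
  | zero => simp
  | add x y hx hy =>
    rw [map_add, hx, hy, MonoidAlgebra.coeff_add, Finsupp.sum_add_index']
    · intro n
      simp
    · intro n a b
      rw [map_add, MonoidAlgebra.single_add]
  | single n c =>
    rw [MonoidAlgebra.coeff_single, Finsupp.sum_single_index (by simp)]
    simp only [galHom, RingHom.comp_apply, MonoidAlgebra.mapRingHom_single,
      MonoidAlgebra.mapDomainRingHom_apply, MonoidAlgebra.mapDomain_single]
    rfl

/-- The Hopf algebra `H_λ = L[N]^G`, as a `K`-subalgebra of `L[N]`. -/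
noncomputable def Hlam : Subalgebra K (MonoidAlgebra L (N K L)) where
  carrier := {h | ∀ g : L ≃ₐ[K] L, galHom K L g h = h}
  mul_mem' := fun {a b} ha hb g => by rw [map_mul, ha g, hb g]
  add_mem' := fun {a b} ha hb g => by rw [map_add, ha g, hb g]
  algebraMap_mem' := fun k g => galHom_algebraMap K L g k

variable {K L} in
lemma mem_Hlam_iff_mem_H {h : MonoidAlgebra L (N K L)} : h ∈ Hlam K L ↔ h ∈ H K L := by
  constructor
  · intro hh g
    rw [← galHom_eq]
    exact hh g
  · intro hh g
    rw [galHom_eq]
    exact hh g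

end defs

section basics

variable {K L : Type*} [Field K] [Field L] [Algebra K L]

lemma lam_injective : Function.Injective (lam K L) := by
  intro a b h
  have := DFunLike.congr_fun h (1 : L ≃ₐ[K] L)
  simpa [lam] using this

/-- `g ↦ λ(g)` as an isomorphism of `G` with `N`. -/
noncomputable def toN : (L ≃ₐ[K] L) ≃* N K L :=
  MulEquiv.ofBijective (⟨⟨fun g => (⟨lam K L g, g, rfl⟩ : N K L), Subtype.ext (lam_one K L)⟩,
    fun a b => Subtype.ext (lam_mul K L a b)⟩ : (L ≃ₐ[K] L) →* N K L)
    ⟨fun a b h => lam_injective (congrArg Subtype.val h), fun n => by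
      obtain ⟨g, hg⟩ := n.2
      exact ⟨g, Subtype.ext hg⟩⟩

lemma toN_coe (g : L ≃ₐ[K] L) : ((toN g : N K L) : Equiv.Perm (L ≃ₐ[K] L)) = lam K L g := rfl

lemma toN_inv_one (g : L ≃ₐ[K] L) :
    (((toN g)⁻¹ : N K L) : Equiv.Perm (L ≃ₐ[K] L)) 1 = g⁻¹ := by
  rw [← map_inv, toN_coe]
  simp [lam]

lemma conjN_toN (g u : L ≃ₐ[K] L) : conjN K L g (toN u) = toN (g * u * g⁻¹) := by
  apply Subtype.ext
  simp only [conjN, MulEquiv.coe_toMonoidHom, MulAut.conj_apply, Subgroup.coe_mul,
    Subgroup.coe_inv, toN_coe, lam_mul, lam_inv]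

lemma conjN_injective (g : L ≃ₐ[K] L) : Function.Injective (conjN K L g) :=
  (MulAut.conj (⟨lam K L g, g, rfl⟩ : N K L)).injective

lemma galHom_coeff (g u : L ≃ₐ[K] L) (h : MonoidAlgebra L (N K L)) :
    (galHom K L g h).coeff (toN (g * u * g⁻¹)) = g (h.coeff (toN u)) := by
  rw [← conjN_toN]
  induction h using MonoidAlgebra.induction_linear with
  | zero => simp
  | add x y hx hy => simp [hx, hy]
  | single n c =>
    simp only [galHom, RingHom.comp_apply]
    simp only [MonoidAlgebra.mapRingHom_single, MonoidAlgebra.mapDomainRingHom_apply,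
      MonoidAlgebra.mapDomain_single, MonoidAlgebra.coeff_single]
    by_cases hn : n = toN u
    · subst hn; simp
    · rw [Finsupp.single_eq_of_ne, Finsupp.single_eq_of_ne]
      · simp
      · exact fun h => hn h.symm
      · exact fun h => hn ((conjN_injective g) h).symm

lemma mem_Hlam_iff {h : MonoidAlgebra L (N K L)} :
    h ∈ Hlam K L ↔ ∀ g u : L ≃ₐ[K] L, h.coeff (toN (g * u * g⁻¹)) = g (h.coeff (toN u)) := by
  constructor
  · intro hh g u
    rw [← galHom_coeff, hh g]
  · intro hh g
    apply MonoidAlgebra.ext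
    ext n
    obtain ⟨u, rfl⟩ := toN.surjective n
    have h1 : u = g * (g⁻¹ * u * g) * g⁻¹ := by group
    rw [h1, galHom_coeff, hh]

variable [FiniteDimensional K L]

lemma act_eq (h : MonoidAlgebra L (N K L)) (x : L) :
    act K L h x = ∑ g : L ≃ₐ[K] L, h.coeff (toN g) * (g⁻¹) x := by
  classical
  unfold act
  let _ : Fintype (N K L) := Fintype.ofEquiv _ (toN (K := K) (L := L)).toEquiv
  rw [Finsupp.sum_fintype _ _ (by intro i; simp)]
  rw [← (toN (K := K) (L := L)).toEquiv.sum_comp]
  refine Finset.sum_congr rfl fun g _ => ?_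
  change h.coeff (toN g) * ((((toN g)⁻¹ : N K L) : Equiv.Perm (L ≃ₐ[K] L)) 1) x = _
  rw [toN_inv_one]

lemma act_add_left (h h' : MonoidAlgebra L (N K L)) (x : L) :
    act K L (h + h') x = act K L h x + act K L h' x := by
  simp only [act_eq, MonoidAlgebra.coeff_add, Finsupp.add_apply, add_mul, Finset.sum_add_distrib]

lemma act_single_mul (g : L ≃ₐ[K] L) (c : L) {h : MonoidAlgebra L (N K L)} (hh : h ∈ Hlam K L)
    (x : L) : act K L (MonoidAlgebra.single (toN g) c * h) x =
      act K L (MonoidAlgebra.single (toN g) c) (act K L h x) := by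
  classical
  rw [act_eq, act_eq, act_eq]
  have h1 : ∀ u : L ≃ₐ[K] L, (MonoidAlgebra.single (toN g) c * h).coeff (toN (g * u)) =
      c * h.coeff (toN u) := by
    intro u
    rw [map_mul, MonoidAlgebra.coeff_single_mul_mul]
  rw [← Equiv.sum_comp (Equiv.mulLeft g)
    (fun u => (MonoidAlgebra.single (toN g) c * h).coeff (toN u) * (u⁻¹) x)]
  simp only [Equiv.coe_mulLeft, h1]
  have h2 : ∀ u : L ≃ₐ[K] L, (MonoidAlgebra.single (toN g) c : MonoidAlgebra L (N K L)).coeff
      (toN u) = if u = g then c else 0 := by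
    intro u
    rw [MonoidAlgebra.coeff_single, Finsupp.single_apply]
    by_cases hu : u = g
    · subst hu; simp
    · rw [if_neg hu, if_neg]
      intro h'
      exact hu (toN.injective h').symm
  simp only [h2, ite_mul, zero_mul]
  rw [Finset.sum_ite_eq' Finset.univ g, if_pos (Finset.mem_univ _), map_sum, Finset.mul_sum]
  rw [← (MulAut.conj g).toEquiv.sum_comp (fun u => c * (g⁻¹) (h.coeff (toN u) * (u⁻¹) x))]
  refine Finset.sum_congr rfl fun u _ => ?_
  change _ = c * (g⁻¹) (h.coeff (toN (g * u * g⁻¹)) * ((g * u * g⁻¹)⁻¹) x)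
  rw [mem_Hlam_iff.1 hh, map_mul, mul_assoc]
  congr 2
  · change _ = (g⁻¹ * g) _
    rw [inv_mul_cancel, AlgEquiv.one_apply]
  · change _ = (g⁻¹ * (g * u * g⁻¹)⁻¹) x
    congr 1
    group

lemma act_mul (h : MonoidAlgebra L (N K L)) {h' : MonoidAlgebra L (N K L)} (hh : h' ∈ Hlam K L)
    (x : L) : act K L (h * h') x = act K L h (act K L h' x) := by
  induction h using MonoidAlgebra.induction_linear with
  | zero => simp [act_eq]
  | add a b ha hb => rw [add_mul, act_add_left, act_add_left, ha, hb]
  | single n c =>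
    obtain ⟨g, rfl⟩ := toN.surjective n
    exact act_single_mul g c hh x

/-- The action of `H_λ` on `L` as a homomorphism of `K`-algebras `H_λ → End_K(L)`. -/
noncomputable def Phi : Hlam K L →ₐ[K] Module.End K L where
  toFun h :=
    { toFun := act K L (h : MonoidAlgebra L (N K L))
      map_add' := fun x y => by
        simp only [act_eq, map_add, mul_add, Finset.sum_add_distrib]
      map_smul' := fun k x => by
        simp only [act_eq, map_smul, RingHom.id_apply, Finset.smul_sum]
        refine Finset.sum_congr rfl fun g _ => ?_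
        rw [mul_smul_comm] }
  map_one' := by
    classical
    ext x
    simp only [OneMemClass.coe_one, LinearMap.coe_mk, AddHom.coe_mk, Module.End.one_apply]
    rw [act_eq, Finset.sum_eq_single 1]
    · rw [map_one]
      simp
    · intro g _ hg
      have : (1 : MonoidAlgebra L (N K L)).coeff (toN g) = 0 := by
        rw [MonoidAlgebra.one_def, MonoidAlgebra.coeff_single, Finsupp.single_apply, if_neg]
        intro h
        exact hg (toN.injective (by rw [← h, map_one]))
      rw [this, zero_mul]
    · intro h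
      exact absurd (Finset.mem_univ _) h
  map_mul' := fun a b => by
    ext x
    exact act_mul _ b.2 x
  map_zero' := by
    ext x
    simp [act_eq]
  map_add' := fun a b => by
    ext x
    exact act_add_left _ _ x
  commutes' := fun k => by
    classical
    ext x
    change act K L (algebraMap K (MonoidAlgebra L (N K L)) k) x = _
    rw [act_eq, Finset.sum_eq_single 1]
    · rw [map_one]
      simp [Algebra.smul_def]
    · intro g _ hg
      have : (algebraMap K (MonoidAlgebra L (N K L)) k).coeff (toN g) = 0 := by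
        rw [Algebra.algebraMap_eq_smul_one, MonoidAlgebra.coeff_smul, Finsupp.smul_apply,
          MonoidAlgebra.one_def, MonoidAlgebra.coeff_single, Finsupp.single_apply, if_neg,
          smul_zero]
        intro h
        exact hg (toN.injective (by rw [← h, map_one]))
      rw [this, zero_mul]
    · intro h
      exact absurd (Finset.mem_univ _) h

lemma Phi_apply (h : Hlam K L) (x : L) : Phi h x = act K L (h : MonoidAlgebra L (N K L)) x := rfl

end basics

end Pool.Agent.K7.H61.HG
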