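import Mathlib
import Pool.Agent.K7.H61.HopfGalois

set_option autoImplicit false

namespace Pool.Agent.K7.H61.HG

open Module

section

variable {K L : Type*} [Field K] [Field L] [Algebra K L] [FiniteDimensional K L]

omit [FiniteDimensional K L] in
/-- Artin-Dedekind: the automorphisms of `L/K` are linearly independent over `L`. -/
lemma linInd_aut : LinearIndependent L
    (fun g : L ≃ₐ[K] L => (((g⁻¹ : L ≃ₐ[K] L) : L →ₐ[K] L).toLinearMap : L →ₗ[K] L)) :=
  (linearIndependent_algHom_toLinearMap K L L).comp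
    (fun g : L ≃ₐ[K] L => ((g⁻¹ : L ≃ₐ[K] L) : L →ₐ[K] L)) (by
      intro a b h
      have : a⁻¹ = b⁻¹ := by
        ext x
        exact DFunLike.congr_fun h x
      exact inv_injective this)

lemma coeff_eq_zero_of_act {h : MonoidAlgebra L (N K L)} (hh : ∀ x, act K L h x = 0) : h = 0 := by
  have h1 : ∀ g : L ≃ₐ[K] L, h.coeff (toN g) = 0 := by
    have := Fintype.linearIndependent_iff.1 (linInd_aut (K := K) (L := L))
      (fun g => h.coeff (toN g)) (by
        ext x
        simp only [LinearMap.sum_apply, LinearMap.smul_apply, LinearMap.zero_apply, smul_eq_mul]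
        have := hh x
        rw [act_eq] at this
        exact this)
    exact this
  apply MonoidAlgebra.ext
  ext n
  obtain ⟨u, rfl⟩ := toN.surjective n
  rw [h1 u]
  rfl

lemma Phi_injective : Function.Injective (Phi (K := K) (L := L)) := by
  rw [injective_iff_map_eq_zero]
  intro h hh
  apply Subtype.ext
  apply coeff_eq_zero_of_act
  intro x
  rw [← Phi_apply, hh]
  rfl

/-- The action of `H_λ` commutes with the Galois group. -/
lemma Phi_comm (h : Hlam K L) (g : L ≃ₐ[K] L) (x : L) : g (Phi h x) = Phi h (g x) := by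
  rw [Phi_apply, Phi_apply, act_eq, act_eq, map_sum]
  rw [← Equiv.sum_comp (MulAut.conj g).toEquiv
    (fun u => (h : MonoidAlgebra L (N K L)).coeff (toN u) * (u⁻¹) (g x))]
  refine Finset.sum_congr rfl fun u _ => ?_
  change _ = (h : MonoidAlgebra L (N K L)).coeff (toN (g * u * g⁻¹)) * ((g * u * g⁻¹)⁻¹) (g x)
  rw [mem_Hlam_iff.1 h.2, map_mul]
  congr 1
  change (g * u⁻¹) x = ((g * u * g⁻¹)⁻¹ * g) x
  congr 1
  group

variable [IsGalois K L]

/-- Every `K`-linear endomorphism of `L` which commutes with the Galois group comes from `H_λ`. -/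
lemma exists_Phi_eq (f : Module.End K L) (hf : ∀ (g : L ≃ₐ[K] L) (x : L), g (f x) = f (g x)) :
    ∃ h : Hlam K L, Phi h = f := by
  classical
  have hcard : Fintype.card (L ≃ₐ[K] L) = finrank L (L →ₗ[K] L) := by
    rw [Module.finrank_linearMap_self, ← IsGalois.card_aut_eq_finrank, Nat.card_eq_fintype_card]
  have hspan := (linInd_aut (K := K) (L := L)).span_eq_top_of_card_eq_finrank' hcard
  have hmem : (f : L →ₗ[K] L) ∈ Submodule.span L (Set.range (fun g : L ≃ₐ[K] L =>
      (((g⁻¹ : L ≃ₐ[K] L) : L →ₐ[K] L).toLinearMap : L →ₗ[K] L))) := by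
    rw [hspan]; trivial
  rw [Submodule.mem_span_range_iff_exists_fun] at hmem
  obtain ⟨c, hc⟩ := hmem
  have hc' : ∀ x, f x = ∑ g : L ≃ₐ[K] L, c g * (g⁻¹) x := by
    intro x
    have := LinearMap.congr_fun hc x
    rw [LinearMap.sum_apply] at this
    exact this.symm
  let h0 : MonoidAlgebra L (N K L) := ∑ g : L ≃ₐ[K] L, MonoidAlgebra.single (toN g) (c g)
  have h0c : ∀ u : L ≃ₐ[K] L, h0.coeff (toN u) = c u := by
    intro u
    simp only [h0, MonoidAlgebra.coeff_sum, Finsupp.finsetSum_apply, MonoidAlgebra.coeff_single]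
    rw [Finset.sum_eq_single u]
    · simp
    · intro b _ hb
      rw [Finsupp.single_apply, if_neg]
      intro h
      exact hb (toN.injective h)
    · intro h
      exact absurd (Finset.mem_univ _) h
  have hact : ∀ x, act K L h0 x = f x := by
    intro x
    rw [act_eq, hc']
    simp only [h0c]
  have hmem0 : h0 ∈ Hlam K L := by
    intro σ
    rw [← sub_eq_zero]
    apply coeff_eq_zero_of_act
    intro x
    rw [act_eq]
    have h1 : ∀ g : L ≃ₐ[K] L, (galHom K L σ h0 - h0).coeff (toN g) * (g⁻¹) x =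
        (galHom K L σ h0).coeff (toN g) * (g⁻¹) x - h0.coeff (toN g) * (g⁻¹) x := by
      intro g
      rw [MonoidAlgebra.coeff_sub, Finsupp.sub_apply, sub_mul]
    have h3 : ∑ g : L ≃ₐ[K] L, h0.coeff (toN g) * (g⁻¹) x = f x := by rw [← act_eq, hact]
    rw [Finset.sum_congr rfl fun g _ => h1 g, Finset.sum_sub_distrib, h3, sub_eq_zero]
    rw [← Equiv.sum_comp (MulAut.conj σ).toEquiv
      (fun g => (galHom K L σ h0).coeff (toN g) * (g⁻¹) x)]
    have h2 : ∀ g : L ≃ₐ[K] L, (galHom K L σ h0).coeff (toN ((MulAut.conj σ).toEquiv g)) *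
        (((MulAut.conj σ).toEquiv g)⁻¹) x = σ (c g * (g⁻¹) ((σ⁻¹) x)) := by
      intro g
      change (galHom K L σ h0).coeff (toN (σ * g * σ⁻¹)) * ((σ * g * σ⁻¹)⁻¹) x = _
      rw [galHom_coeff, h0c, map_mul]
      congr 1
    rw [Finset.sum_congr rfl fun g _ => h2 g, ← map_sum, ← hc', hf]
    congr 1
    change (σ * σ⁻¹) x = x
    rw [mul_inv_cancel, AlgEquiv.one_apply]
  refine ⟨⟨h0, hmem0⟩, ?_⟩
  ext x
  exact hact x

end

/-! ### Averaging and the trace form -/

section

variable {R K L : Type*} [CommRing R] [IsDedekindDomain R] [Field K] [Algebra R K]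
  [IsFractionRing R K] [Field L] [Algebra K L] [Algebra R L] [IsScalarTower R K L]
  [FiniteDimensional K L]

/-- Let `M` be a lattice which is stable under the Galois group, the order of which is a unit
in `R`.  If `f` commutes with the group and the trace of `f e` is in `R` for all `e` which
commute with the group and preserve `M`, then `f` preserves `M`. -/
lemma preserves_of_trace (M : Submodule R L) [M.IsLattice K]
    (hM : ∀ (g : L ≃ₐ[K] L) (x : L), x ∈ M → g x ∈ M)
    (u : R) (hu : u * (Fintype.card (L ≃ₐ[K] L) : R) = 1)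
    (f : Module.End K L) (hf : ∀ (g : L ≃ₐ[K] L) (x : L), g (f x) = f (g x))
    (h : ∀ e : Module.End K L, (∀ (g : L ≃ₐ[K] L) (x : L), g (e x) = e (g x)) →
      (∀ x ∈ M, e x ∈ M) → ∃ r : R, algebraMap R K r = LinearMap.trace K L (f * e)) :
    ∀ x ∈ M, f x ∈ M := by
  classical
  intro x hx
  refine mem_of_dual (K := K) M (f x) ?_
  intro l hl
  -- the rank one map `l(·) x`
  let e0 : Module.End K L := l.smulRight x
  let A : (L ≃ₐ[K] L) → Module.End K L := fun g =>
    ((g : L →ₐ[K] L).toLinearMap * e0 * ((g⁻¹ : L ≃ₐ[K] L) : L →ₐ[K] L).toLinearMap :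
      Module.End K L)
  let e : Module.End K L := algebraMap R K u • ∑ g : L ≃ₐ[K] L, A g
  have hA : ∀ g y, A g y = g (l ((g⁻¹) y) • x) := fun g y => rfl
  have he : ∀ y, e y = algebraMap R K u • ∑ g : L ≃ₐ[K] L, g (l ((g⁻¹) y) • x) := by
    intro y
    simp only [e, LinearMap.smul_apply, LinearMap.sum_apply, hA]
  obtain ⟨r, hr⟩ := h e (by
    intro σ y
    rw [he, he, map_smul, map_sum]
    congr 1
    rw [← Equiv.sum_comp (Equiv.mulLeft σ) (fun g => g (l ((g⁻¹) (σ y)) • x))]
    refine Finset.sum_congr rfl fun g _ => ?_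
    change (σ * g) (l ((g⁻¹) y) • x) = (σ * g) (l (((σ * g)⁻¹ * σ) y) • x)
    congr 3
    group) (by
    intro y hy
    rw [he, IsScalarTower.algebraMap_smul]
    refine M.smul_mem _ (M.sum_mem fun g _ => hM _ _ ?_)
    obtain ⟨s, hs⟩ := hl ((g⁻¹) y) (hM _ _ hy)
    rw [← hs, IsScalarTower.algebraMap_smul]
    exact M.smul_mem _ hx)
  refine ⟨r, ?_⟩
  rw [hr]
  have h1 : ∀ g : L ≃ₐ[K] L, LinearMap.trace K L (f * A g) = l (f x) := by
    intro g
    have h2 : f * A g = ((g : L →ₐ[K] L).toLinearMap : Module.End K L) * (f * e0 *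
        (((g⁻¹ : L ≃ₐ[K] L) : L →ₐ[K] L).toLinearMap : Module.End K L)) := by
      ext y
      change f (g (e0 ((g⁻¹) y))) = g (f (e0 ((g⁻¹) y)))
      rw [hf]
    rw [h2, LinearMap.trace_mul_comm]
    have h3 : f * e0 * (((g⁻¹ : L ≃ₐ[K] L) : L →ₐ[K] L).toLinearMap : Module.End K L) *
        ((g : L →ₐ[K] L).toLinearMap : Module.End K L) = f * e0 := by
      ext y
      change f (e0 ((g⁻¹ * g) y)) = f (e0 y)
      rw [inv_mul_cancel, AlgEquiv.one_apply]
    rw [h3]
    have h4 : f * e0 = l.smulRight (f x) := by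
      ext y
      change f (l y • x) = l y • f x
      rw [map_smul]
    rw [h4]
    exact LinearMap.trace_smulRight l (f x)
  have h2 : f * e = algebraMap R K u • ∑ g : L ≃ₐ[K] L, f * A g := by
    simp only [e, mul_smul_comm, Finset.mul_sum]
  rw [h2, map_smul, map_sum, Finset.sum_congr rfl fun g _ => h1 g, Finset.sum_const,
    Finset.card_univ, nsmul_eq_mul, smul_eq_mul, ← mul_assoc]
  have h3 : algebraMap R K u * (Fintype.card (L ≃ₐ[K] L) : K) = 1 := by
    have := congrArg (algebraMap R K) hu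
    rwa [map_mul, map_natCast, map_one] at this
  rw [h3, one_mul]

end

end Pool.Agent.K7.H61.HG
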