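import Mathlib
import Pool.Agent.K7.H61.HopfGalois2

/-!
# Maximality of the associated order in the canonical nonclassical Hopf-Galois structure

`H_λ` acts on `L` as the full commutant `End_{K[G]}(L)` of the Galois group, so the associated order is
`End_{O_K[G]}(O_L)`. When `p` does not divide `|G|` one can average over `G` inside `O_K`, and the trace
form of `End_K(L)` shows that every order of `H_λ` which contains it preserves `O_L`.
-/

set_option autoImplicit false

namespace Pool.Agent.K7.H61.HGMax

open Module Pool.Agent.K7.H61.HG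

section defs

variable {R K A : Type*} [CommRing R] [Field K] [Algebra R K] [Ring A] [Algebra K A] [Algebra R A]

/-- `Γ` is an `R`-order in the `K`-algebra `A`: a subalgebra which is finitely generated as an
`R`-module and spans `A` over `K`. -/
def IsOrd (K : Type*) {A : Type*} [Field K] [Algebra R K] [Ring A] [Algebra K A] [Algebra R A]
    (Γ : Subalgebra R A) : Prop :=
  (Subalgebra.toSubmodule Γ).FG ∧ Submodule.span K (Γ : Set A) = ⊤

/-- `Γ` is a maximal `R`-order in the `K`-algebra `A`. -/
def IsMaxOrd (K : Type*) {A : Type*} [Field K] [Algebra R K] [Ring A] [Algebra K A]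
    [Algebra R A] (Γ : Subalgebra R A) : Prop :=
  IsOrd K Γ ∧ ∀ Γ' : Subalgebra R A, IsOrd K Γ' → Γ ≤ Γ' → Γ' = Γ

end defs

section

variable (p : ℕ) [Fact p.Prime] (K L : Type*) [Field K] [Field L]
  [Algebra ℚ_[p] K] [Algebra ℤ_[p] K] [IsScalarTower ℤ_[p] ℚ_[p] K]
  [Algebra K L] [Algebra ℤ_[p] L] [IsScalarTower ℤ_[p] K L]

/-- The associated order `𝔄_λ = {h ∈ H_λ : h · O_L ⊆ O_L}`, an `O_K`-subalgebra of `H_λ`; `O_K` and
`O_L` are the integral closures of `ℤ_p` in `K` and in `L`. -/
noncomputable def assocOrd [FiniteDimensional K L] :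
    Subalgebra (integralClosure ℤ_[p] K) (Hlam K L) where
  carrier := {h | ∀ x ∈ integralClosure ℤ_[p] L,
    act K L (h : MonoidAlgebra L (N K L)) x ∈ integralClosure ℤ_[p] L}
  mul_mem' := fun {a b} ha hb x hx => by
    rw [Subalgebra.coe_mul, act_mul _ b.2]
    exact ha _ (hb _ hx)
  add_mem' := fun {a b} ha hb x hx => by
    rw [Subalgebra.coe_add, act_add_left]
    exact add_mem (ha _ hx) (hb _ hx)
  algebraMap_mem' := fun r x hx => by
    have h1 : act K L ((algebraMap (integralClosure ℤ_[p] K) (Hlam K L) r : Hlam K L) :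
        MonoidAlgebra L (N K L)) x = (r : K) • x := by
      have : (algebraMap (integralClosure ℤ_[p] K) (Hlam K L) r : Hlam K L) =
        algebraMap K (Hlam K L) (r : K) := rfl
      rw [this, ← Phi_apply, AlgHom.commutes]
      rfl
    rw [h1, Algebra.smul_def]
    refine mul_mem ?_ hx
    exact (r.2 : IsIntegral ℤ_[p] (r : K)).algebraMap

end

/-- Let `L/K` be a Galois extension of `p`-adic fields (finite extensions of `ℚ_p`) whose degree is
prime to `p`. Then the associated order `𝔄_λ` of `O_L` in the Hopf algebra `H_λ = L[N]^G`, `N = λ(G)`, of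
the canonical nonclassical Hopf-Galois structure is a maximal `O_K`-order in `H_λ`. -/
theorem main (p : ℕ) [Fact p.Prime] (K L : Type*) [Field K] [Field L]
    [Algebra ℚ_[p] K] [FiniteDimensional ℚ_[p] K] [Algebra ℤ_[p] K] [IsScalarTower ℤ_[p] ℚ_[p] K]
    [Algebra K L] [FiniteDimensional K L] [IsGalois K L] [Algebra ℤ_[p] L] [IsScalarTower ℤ_[p] K L]
    (hp : ¬ p ∣ Module.finrank K L) :
    IsMaxOrd K (assocOrd p K L) := by
  classical
  -- notation
  set R := integralClosure ℤ_[p] K with hR
  have hchar : CharZero K := charZero_of_injective_algebraMap (algebraMap ℚ_[p] K).injective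
  have hded : IsDedekindDomain R := integralClosure.isDedekindDomain ℤ_[p] ℚ_[p] K
  have hfrac : IsFractionRing R K := integralClosure.isFractionRing_of_finite_extension ℚ_[p] K
  have hsep : Algebra.IsSeparable K L := inferInstance
  -- the lattice `O_L`
  let S := integralClosure R L
  have hSfin : Module.Finite R S := IsIntegralClosure.finite R K L S
  have hmemS : ∀ x : L, x ∈ S ↔ x ∈ integralClosure ℤ_[p] L := by
    intro x
    constructor
    · intro hx
      have : Algebra.IsIntegral ℤ_[p] R := inferInstance
      exact isIntegral_trans (R := ℤ_[p]) (A := R) x hx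
    · intro hx
      exact (show IsIntegral ℤ_[p] x from hx).tower_top
  let M : Submodule R L := Subalgebra.toSubmodule S
  have hmemM : ∀ x : L, x ∈ M ↔ x ∈ integralClosure ℤ_[p] L := hmemS
  have halg : Algebra.IsAlgebraic R L := by
    rw [IsFractionRing.comap_isAlgebraic_iff (K := K)]
    infer_instance
  have hMlat : M.IsLattice K := by
    refine ⟨?_, ?_⟩
    · have : Module.Finite R M := hSfin
      exact Module.Finite.iff_fg.1 this
    · rw [eq_top_iff]
      intro x _
      obtain ⟨y, hy0, hy⟩ := (Algebra.IsAlgebraic.isAlgebraic (R := R) x).exists_integral_multiple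
      have hy0' : (y : K) ≠ 0 := by
        intro h
        exact hy0 (Subtype.ext h)
      have h1 : x = (y : K)⁻¹ • (y • x) := by
        rw [← IsScalarTower.algebraMap_smul K y x, smul_smul]
        change x = ((y : K)⁻¹ * (y : K)) • x
        rw [inv_mul_cancel₀ hy0', one_smul]
      rw [h1]
      exact Submodule.smul_mem _ _ (Submodule.subset_span hy)
  have hMfin : Module.Finite R M := hSfin
  have hMgal : ∀ (g : L ≃ₐ[K] L) (x : L), x ∈ M → g x ∈ M := by
    intro g x hx
    have hx' : IsIntegral R x := hx
    exact hx'.map ((g : L →ₐ[K] L).restrictScalars R)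
  -- the group order is a unit of `O_K`
  obtain ⟨u, hu⟩ : ∃ u : R, u * (Fintype.card (L ≃ₐ[K] L) : R) = 1 := by
    have h1 : Fintype.card (L ≃ₐ[K] L) = finrank K L := by
      rw [← IsGalois.card_aut_eq_finrank, Nat.card_eq_fintype_card]
    have h2 : IsUnit ((finrank K L : ℕ) : ℤ_[p]) := by
      rw [PadicInt.isUnit_iff, PadicInt.norm_natCast_eq_one_iff]
      exact (Nat.Prime.coprime_iff_not_dvd (Fact.out)).2 hp
    have h3 : IsUnit ((finrank K L : ℕ) : R) := by
      have := h2.map (algebraMap ℤ_[p] R)
      rwa [map_natCast] at this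
    obtain ⟨v, hv⟩ := h3.exists_left_inv
    exact ⟨v, by rw [h1]; exact hv⟩
  -- membership in the associated order
  have hmemA : ∀ h : Hlam K L, h ∈ assocOrd p K L ↔ ∀ x ∈ M, Phi h x ∈ M := by
    intro h
    constructor
    · intro hh x hx
      rw [hmemM] at hx ⊢
      exact hh x hx
    · intro hh x hx
      rw [← hmemM] at hx ⊢
      exact hh x hx
  have hPhismul : ∀ (r : R) (h : Hlam K L) (x : L), Phi (r • h) x = r • Phi h x := by
    intro r h x
    have : r • h = (r : K) • h := rfl
    rw [this, map_smul]
    rfl
  -- finite generating set of the lattice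
  obtain ⟨n, b, hb⟩ := Module.Finite.exists_fin (R := R) (M := M)
  have hgen : ∀ x ∈ M, ∃ c : Fin n → R, x = ∑ i, c i • (b i : L) := by
    intro x hx
    have h1 : (⟨x, hx⟩ : M) ∈ Submodule.span R (Set.range b) := by rw [hb]; trivial
    rw [Submodule.mem_span_range_iff_exists_fun] at h1
    obtain ⟨c, hc⟩ := h1
    refine ⟨c, ?_⟩
    have := congrArg Subtype.val hc
    rw [Submodule.coe_sum] at this
    exact this.symm
  have hLspan : ∀ x : L, ∃ y : R, y ≠ 0 ∧ y • x ∈ M := by
    intro x
    obtain ⟨y, hy0, hy⟩ := (Algebra.IsAlgebraic.isAlgebraic (R := R) x).exists_integral_multiple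
    exact ⟨y, hy0, hy⟩
  refine ⟨⟨?_, ?_⟩, ?_⟩
  · -- finitely generated
    let ψ : (Subalgebra.toSubmodule (assocOrd p K L)) →ₗ[R] (Fin n → M) :=
      { toFun := fun h i => ⟨Phi (h : Hlam K L) (b i : L), (hmemA h).1 h.2 _ (b i).2⟩
        map_add' := fun h h' => by
          funext i
          apply Subtype.ext
          change Phi ((h : Hlam K L) + (h' : Hlam K L)) (b i : L) = _
          rw [map_add]
          rfl
        map_smul' := fun r h => by
          funext i
          apply Subtype.ext
          change Phi (r • (h : Hlam K L)) (b i : L) = _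
          rw [hPhismul]
          rfl }
    have hψ : Function.Injective ψ := by
      rw [injective_iff_map_eq_zero]
      intro h hh
      apply Subtype.ext
      apply Phi_injective
      rw [ZeroMemClass.coe_zero, map_zero]
      have h1 : ∀ i, Phi (h : Hlam K L) (b i : L) = 0 := by
        intro i
        exact congrArg Subtype.val (congrFun hh i)
      have h2 : ∀ x ∈ M, Phi (h : Hlam K L) x = 0 := by
        intro x hx
        obtain ⟨c, rfl⟩ := hgen x hx
        rw [map_sum]
        refine Finset.sum_eq_zero fun i _ => ?_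
        rw [← IsScalarTower.algebraMap_smul K (c i), map_smul, h1, smul_zero]
      ext x
      obtain ⟨y, hy0, hy⟩ := hLspan x
      have h3 := h2 _ hy
      rw [← IsScalarTower.algebraMap_smul K y, map_smul] at h3
      have hy0' : algebraMap R K y ≠ 0 := by
        intro h
        exact hy0 (Subtype.ext h)
      rw [LinearMap.zero_apply]
      exact (smul_eq_zero.1 h3).resolve_left hy0'
    have : IsNoetherian R (Fin n → M) := inferInstance
    have h3 : Module.Finite R (Subalgebra.toSubmodule (assocOrd p K L)) :=
      Module.Finite.of_injective ψ hψ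
    exact Module.Finite.iff_fg.1 h3
  · -- spanning
    rw [eq_top_iff]
    intro h _
    obtain ⟨d, hd0, hd⟩ := Algebra.IsAlgebraic.exists_integral_multiples R
      (Finset.univ.image (fun i : Fin n => Phi h (b i : L)))
    have hd0' : (d : K) ≠ 0 := by
      intro h
      exact hd0 (Subtype.ext h)
    have h1 : d • h ∈ assocOrd p K L := by
      rw [hmemA]
      intro x hx
      obtain ⟨c, rfl⟩ := hgen x hx
      rw [map_sum]
      refine M.sum_mem fun i _ => ?_
      rw [← IsScalarTower.algebraMap_smul K (c i), map_smul, hPhismul,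
        IsScalarTower.algebraMap_smul]
      refine M.smul_mem _ ?_
      exact hd _ (Finset.mem_image_of_mem _ (Finset.mem_univ i))
    have h2 : h = (d : K)⁻¹ • (d • h) := by
      have : d • h = (d : K) • h := rfl
      rw [this, smul_smul, inv_mul_cancel₀ hd0', one_smul]
    rw [h2]
    exact Submodule.smul_mem _ _ (Submodule.subset_span h1)
  · -- maximality
    intro Γ hΓ hle
    refine le_antisymm ?_ hle
    intro h hh
    rw [hmemA]
    refine preserves_of_trace M hMgal u hu (Phi h) (Phi_comm h) ?_
    intro e he1 he2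
    obtain ⟨a, rfl⟩ := exists_Phi_eq e he1
    have ha : a ∈ Γ := hle ((hmemA a).2 he2)
    have hha : h * a ∈ Γ := mul_mem hh ha
    have hΓfin : Module.Finite R Γ := Module.Finite.iff_fg.2 hΓ.1
    obtain ⟨P, hP, hPa⟩ : IsIntegral R (⟨h * a, hha⟩ : Γ) := IsIntegral.of_finite R _
    have hPa' : Polynomial.aeval (h * a) P = 0 := by
      have h1 : Polynomial.aeval (⟨h * a, hha⟩ : Γ) P = 0 := hPa
      have h2 := congrArg (Subalgebra.val Γ) h1
      rw [← Polynomial.aeval_algHom_apply, map_zero] at h2
      exact h2
    have h3 : Polynomial.aeval (Phi h * Phi a) (P.map (algebraMap R K)) = 0 := by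
      have h4 : Polynomial.aeval (h * a) (P.map (algebraMap R K)) = 0 := by
        rw [Polynomial.aeval_map_algebraMap]
        exact hPa'
      have h5 := congrArg (Phi (K := K) (L := L)) h4
      rw [← Polynomial.aeval_algHom_apply, map_zero, map_mul] at h5
      exact h5
    have h6 := isIntegral_trace_end R (Phi h * Phi a) ⟨P, hP, h3⟩
    exact IsIntegrallyClosed.isIntegral_iff.1 h6

end Pool.Agent.K7.H61.HGMax
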