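import Pool.Agent.K7.H81.PD.Stm

/-!
# Project PD, job KAT: Kato's inequality in the interior
-/

set_option autoImplicit false

open MeasureTheory Filter Topology
open scoped ContDiff

namespace Pool.Agent.K7.H61.PDKAT

open Pool.Agent.K7.H81.PD

lemma pd_cd {N : ℕ} (i : Fin N) {f : E N → ℝ} (hf : ContDiff ℝ ∞ f) : ContDiff ℝ ∞ (pd i f) := by
  unfold pd
  exact (hf.fderiv_right (m := ∞) (by simp)).clm_apply contDiff_const

lemma lap_cd {N : ℕ} {f : E N → ℝ} (hf : ContDiff ℝ ∞ f) : ContDiff ℝ ∞ (lap f) := by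
  unfold lap
  exact ContDiff.sum fun i _ => pd_cd i (pd_cd i hf)

lemma pd_sup {N : ℕ} (i : Fin N) (f : E N → ℝ) : tsupport (pd i f) ⊆ tsupport f :=
  tsupport_fderiv_apply_subset ℝ _

lemma lap_zero {N : ℕ} {f : E N → ℝ} {x : E N} (hx : x ∉ tsupport f) : lap f x = 0 := by
  unfold lap
  refine Finset.sum_eq_zero fun i _ => ?_
  exact image_eq_zero_of_notMem_tsupport fun h => hx (pd_sup i f (pd_sup i _ h))

/-- the smooth approximation of the positive part -/
noncomputable def p (δ t : ℝ) : ℝ := (t + Real.sqrt (t ^ 2 + δ ^ 2)) / 2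

lemma p_cd {δ : ℝ} (hδ : 0 < δ) : ContDiff ℝ ∞ (p δ) := by
  unfold p
  refine (contDiff_id.add (ContDiff.sqrt ?_ fun t => ?_)).div_const 2
  · exact (contDiff_id.pow 2).add contDiff_const
  · positivity

lemma p_deriv {δ : ℝ} (hδ : 0 < δ) (t : ℝ) :
    HasDerivAt (p δ) ((1 + t / Real.sqrt (t ^ 2 + δ ^ 2)) / 2) t := by
  have h0 : t ^ 2 + δ ^ 2 ≠ 0 := by positivity
  have h1 : HasDerivAt (fun t : ℝ => t ^ 2 + δ ^ 2) (2 * t) t := by
    simpa using (hasDerivAt_pow 2 t).add_const (δ ^ 2)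
  have h2 := ((hasDerivAt_id t).add (h1.sqrt h0)).div_const 2
  refine h2.congr_deriv ?_
  have : Real.sqrt (t ^ 2 + δ ^ 2) ≠ 0 := by positivity
  field_simp

lemma p_deriv_two {δ : ℝ} (hδ : 0 < δ) (t : ℝ) : 0 ≤ deriv (deriv (p δ)) t := by
  have e : deriv (p δ) = fun t => (1 + t / Real.sqrt (t ^ 2 + δ ^ 2)) / 2 :=
    funext fun t => (p_deriv hδ t).deriv
  rw [e]
  have h0 : t ^ 2 + δ ^ 2 ≠ 0 := by positivity
  have hs : 0 < Real.sqrt (t ^ 2 + δ ^ 2) := by positivity
  have h1 : HasDerivAt (fun t : ℝ => t ^ 2 + δ ^ 2) (2 * t) t := by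
    simpa using (hasDerivAt_pow 2 t).add_const (δ ^ 2)
  have h2 := (((hasDerivAt_id t).div (h1.sqrt h0) hs.ne').const_add 1).div_const 2
  have h3 : HasDerivAt (fun t : ℝ => (1 + t / Real.sqrt (t ^ 2 + δ ^ 2)) / 2) _ t := h2
  rw [h3.deriv]
  have h4 : 0 ≤ (1 * Real.sqrt (t ^ 2 + δ ^ 2) - id t * (2 * t / (2 * Real.sqrt (t ^ 2 + δ ^ 2)))) := by
    have h5 : id t * (2 * t / (2 * Real.sqrt (t ^ 2 + δ ^ 2))) =
        t ^ 2 / Real.sqrt (t ^ 2 + δ ^ 2) := by
      simp only [id]
      field_simp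
    rw [h5, one_mul, sub_nonneg, div_le_iff₀ hs, Real.mul_self_sqrt (by positivity)]
    nlinarith [sq_nonneg δ]
  positivity

lemma abs_le_sqrt' (δ t : ℝ) : |t| ≤ Real.sqrt (t ^ 2 + δ ^ 2) :=
  Real.abs_le_sqrt (by nlinarith [sq_nonneg δ])

lemma p_deriv_mem {δ : ℝ} (hδ : 0 < δ) (t : ℝ) : 0 ≤ deriv (p δ) t ∧ deriv (p δ) t ≤ 1 := by
  rw [(p_deriv hδ t).deriv]
  have hs : 0 < Real.sqrt (t ^ 2 + δ ^ 2) := by positivity
  have h := abs_le_sqrt' δ t
  have h1 : |t / Real.sqrt (t ^ 2 + δ ^ 2)| ≤ 1 := by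
    rw [abs_div, abs_of_pos hs, div_le_one hs]
    exact h
  have h2 := abs_le.1 h1
  constructor <;> linarith [h2.1, h2.2]

lemma p_near {δ : ℝ} (hδ : 0 < δ) (t : ℝ) : |p δ t - max t 0| ≤ δ / 2 := by
  have h1 := abs_le_sqrt' δ t
  have h2 : Real.sqrt (t ^ 2 + δ ^ 2) ≤ |t| + δ := by
    rw [Real.sqrt_le_left (by positivity)]
    nlinarith [sq_abs t, abs_nonneg t]
  have h3 : max t 0 = (t + |t|) / 2 := by
    rcases le_total 0 t with h | h
    · rw [max_eq_left h, abs_of_nonneg h]; ring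
    · rw [max_eq_right h, abs_of_nonpos h]; ring
  rw [h3, p, abs_le]
  constructor <;> linarith

theorem t : StKat := by
  intro hI hL h1 h2 hM N Ω m u hΩ hm hu hsub φ hφ hφ0
  obtain ⟨f, g, hf, hg, hg0, hfg, hfi, hlim, hgl⟩ :=
    hM h1 h2 N Ω (tsupport φ) m u hΩ hφ.2.1 hφ.2.2 hm hu hsub
  have hcl : Continuous (lap φ) := (lap_cd hφ.1).continuous
  have hcs : HasCompactSupport (lap φ) :=
    HasCompactSupport.intro hφ.2.1 fun x hx => lap_zero hx
  obtain ⟨M, hMb⟩ := hcs.exists_bound_of_continuous hcl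
  have hM0 : 0 ≤ M := (norm_nonneg _).trans (hMb 0)
  have hlapi : IntegrableOn (lap φ) Ω := (hcl.integrable_of_hasCompactSupport hcs).integrableOn
  have hmaxi : IntegrableOn (fun x => max (u x) 0) Ω := hu.pos_part
  have hui : IntegrableOn (fun x => max (u x) 0 * lap φ x) Ω :=
    hmaxi.mul_bdd (c := M) hcl.aestronglyMeasurable (Eventually.of_forall hMb)
  have key : ∀ k : ℕ, -∫ x in Ω, max (u x) 0 * lap φ x ≤ (∫ x in Ω, φ x * g k x) +
      (M * (∫ x in Ω, |f k x - u x|) + (1 / ((k : ℝ) + 1)) / 2 * ∫ x in Ω, |lap φ x|) := by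
    intro k
    set δ : ℝ := 1 / ((k : ℝ) + 1) with hδd
    have hδ : 0 < δ := by positivity
    have hF : ContDiff ℝ ∞ (fun y => p δ (f k y)) := (p_cd hδ).comp (hf k)
    have hFi : IntegrableOn (fun x => p δ (f k x) * lap φ x) Ω := by
      have : Integrable (fun x => p δ (f k x) * lap φ x) :=
        (hF.continuous.mul hcl).integrable_of_hasCompactSupport hcs.mul_left
      exact this.integrableOn
    -- the inequality for the smooth functions
    have hA : -∫ x in Ω, p δ (f k x) * lap φ x ≤ ∫ x in Ω, φ x * g k x := by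
      rw [hI N Ω _ φ hΩ hF hφ, ← integral_neg]
      refine integral_mono ?_ ?_ fun x => ?_
      · have : Integrable (fun x => -(lap (fun y => p δ (f k y)) x * φ x)) :=
          (((lap_cd hF).continuous.mul hφ.1.continuous).integrable_of_hasCompactSupport
            hφ.2.1.mul_left).neg
        exact this.integrableOn
      · have : Integrable (fun x => φ x * g k x) :=
          (hφ.1.continuous.mul (hg k)).integrable_of_hasCompactSupport hφ.2.1.mul_right
        exact this.integrableOn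
      · show -(lap (fun y => p δ (f k y)) x * φ x) ≤ φ x * g k x
        by_cases hx : x ∈ tsupport φ
        · rw [hL N (p δ) (f k) x (p_cd hδ) (hf k)]
          have ha := hfg k x hx
          obtain ⟨hb, hc⟩ := p_deriv_mem hδ (f k x)
          have hd : 0 ≤ deriv (deriv (p δ)) (f k x) * ∑ i, pd i (f k) x ^ 2 :=
            mul_nonneg (p_deriv_two hδ _) (Finset.sum_nonneg fun i _ => sq_nonneg _)
          have he : -(deriv (p δ) (f k x) * lap (f k) x) ≤ g k x := by
            calc -(deriv (p δ) (f k x) * lap (f k) x)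
                = deriv (p δ) (f k x) * (-lap (f k) x) := by ring
              _ ≤ deriv (p δ) (f k x) * g k x := mul_le_mul_of_nonneg_left ha hb
              _ ≤ 1 * g k x := mul_le_mul_of_nonneg_right hc (hg0 k x)
              _ = g k x := one_mul _
          have hf' : -(deriv (p δ) (f k x) * lap (f k) x +
              deriv (deriv (p δ)) (f k x) * ∑ i, pd i (f k) x ^ 2) ≤ g k x := by linarith
          calc -((deriv (p δ) (f k x) * lap (f k) x +
              deriv (deriv (p δ)) (f k x) * ∑ i, pd i (f k) x ^ 2) * φ x)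
              = φ x * -(deriv (p δ) (f k x) * lap (f k) x +
              deriv (deriv (p δ)) (f k x) * ∑ i, pd i (f k) x ^ 2) := by ring
            _ ≤ φ x * g k x := mul_le_mul_of_nonneg_left hf' (hφ0 x)
        · rw [image_eq_zero_of_notMem_tsupport hx]
          simp
    -- the difference
    have hdi : IntegrableOn (fun x => |f k x - u x|) Ω := ((hfi k).sub hu).abs
    have hB : ∫ x in Ω, -(max (u x) 0 * lap φ x) ≤
        ∫ x in Ω, (-(p δ (f k x) * lap φ x) + (M * |f k x - u x| + δ / 2 * |lap φ x|)) := by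
      refine integral_mono hui.neg (hFi.neg.add ((hdi.const_mul M).add
        (hlapi.abs.const_mul (δ / 2)))) fun x => ?_
      show -(max (u x) 0 * lap φ x) ≤
        -(p δ (f k x) * lap φ x) + (M * |f k x - u x| + δ / 2 * |lap φ x|)
      have hn := p_near hδ (f k x)
      have hq : |max (f k x) 0 - max (u x) 0| ≤ |f k x - u x| := by
        have := abs_max_sub_max_le_abs (f k x) (u x) 0
        exact this
      have hr : |p δ (f k x) - max (u x) 0| ≤ |f k x - u x| + δ / 2 := by
        calc |p δ (f k x) - max (u x) 0|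
            = |(p δ (f k x) - max (f k x) 0) + (max (f k x) 0 - max (u x) 0)| := by ring_nf
          _ ≤ |p δ (f k x) - max (f k x) 0| + |max (f k x) 0 - max (u x) 0| := abs_add_le _ _
          _ ≤ |f k x - u x| + δ / 2 := by linarith
      have hs : (p δ (f k x) - max (u x) 0) * lap φ x ≤
          (|f k x - u x| + δ / 2) * |lap φ x| := by
        calc (p δ (f k x) - max (u x) 0) * lap φ x
            ≤ |(p δ (f k x) - max (u x) 0) * lap φ x| := le_abs_self _
          _ = |p δ (f k x) - max (u x) 0| * |lap φ x| := abs_mul _ _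
          _ ≤ (|f k x - u x| + δ / 2) * |lap φ x| := mul_le_mul_of_nonneg_right hr (abs_nonneg _)
      have hMx : |lap φ x| ≤ M := hMb x
      have hv : |f k x - u x| * |lap φ x| ≤ |f k x - u x| * M :=
        mul_le_mul_of_nonneg_left hMx (abs_nonneg _)
      nlinarith [hs, hv]
    have i2 : IntegrableOn (fun x => M * |f k x - u x|) Ω := hdi.const_mul M
    have i3 : IntegrableOn (fun x => δ / 2 * |lap φ x|) Ω := hlapi.abs.const_mul (δ / 2)
    have i4 : IntegrableOn (fun x => M * |f k x - u x| + δ / 2 * |lap φ x|) Ω := i2.add i3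
    have i1 : IntegrableOn (fun x => -(p δ (f k x) * lap φ x)) Ω := hFi.neg
    have a1 := integral_add i1 i4
    have a2 := integral_add i2 i3
    rw [integral_neg, a1, a2, integral_neg, integral_const_mul, integral_const_mul] at hB
    linarith
  have hlimr : Tendsto (fun k : ℕ => (∫ x in Ω, φ x * g k x) +
      (M * (∫ x in Ω, |f k x - u x|) + (1 / ((k : ℝ) + 1)) / 2 * ∫ x in Ω, |lap φ x|)) atTop
      (𝓝 ((∫ x in Ω, φ x ∂m) + (M * 0 + 0 / 2 * ∫ x in Ω, |lap φ x|))) :=
    (hgl φ hφ).add ((hlim.const_mul M).add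
      ((tendsto_one_div_add_atTop_nhds_zero_nat.div_const 2).mul_const _))
  have := ge_of_tendsto' hlimr key
  simpa using this

end Pool.Agent.K7.H61.PDKAT
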